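import Pool.Agent.Lib.MP_72b724_gt.Interfaces

/-!
# MP_72b724_gt: assembly of the modules
-/

open scoped ENNReal Topology BigOperators
open MeasureTheory Set Filter Topology Pool.Agent.Lib.MP_904b2a_gt Pool.Agent.Lib.MP_89fcdb_gt

namespace Pool.Agent.Lib.MP_72b724_gt

noncomputable section

theorem contraction_of (hS : StageStatement) (hA : AvgStatement) (hP : PrismStatement)
    (hT : StepStatement) (hB : BaseStatement) : ContractionStatement := by
  intro N
  refine ⟨1 + ((N + 2 : ℕ) : ℝ) * (N + 1), by positivity, fun S P hK h0 h1 => ?_⟩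
  have key : ∀ j : ℕ, j ≤ N + 2 → HasBC (S.Eil P (N + 2 - j)) N (1 + (j : ℝ) * (N + 1)) := by
    intro j
    induction j with
    | zero => intro _; simpa using (hB S P N).1
    | succ j ih =>
      intro hj
      have h := ih (by omega)
      have e : N + 2 - j = (N + 2 - (j + 1)) + 1 := by omega
      rw [e] at h
      obtain ⟨T⟩ := hS S P hK h0 h1 (N + 2 - (j + 1))
      have := hT S P _ T (hA S P _ T) (hP S P hK _ T) N _ h
      convert this using 1
      push_cast
      ring
  have := key (N + 2) le_rfl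
  rw [Nat.sub_self] at this
  exact (hB S P N).2 _ this

theorem comp_of (hE : EqMeanStatement) (hC : ChainStatement) (hA : AltStatement)
    (hH : HtpyStatement) : CompStatement := by
  intro D c hc
  refine ⟨c ^ (D + 2), by positivity, ?_⟩
  intro Γ _ S A X _ hBC hX Λ hΛ φ C hφ hδ hinv
  obtain ⟨μ, m1, m2, m3⟩ := hE Γ X hX
  obtain ⟨a, a1, a2, a3, a4⟩ := hC Γ S A X (D + 1) c hc hBC μ m1 m2 m3
  obtain ⟨alt, b1, b2, b3, b4, b5⟩ := hA X
  have heq : ∀ m ≤ D + 1, ∀ (g : Γ) (f : Bdd (S.X m)),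
      a m (Bdd.pull (fun x => A.tr g x) f) = Bdd.pull (fun u i => g • u i) (a m f) := by
    intro m hm g f
    apply Subtype.ext
    funext u
    exact a3 m (by omega) g f u
  obtain ⟨ψ, p1, p2⟩ := hH D c Γ S A X hBC (fun m => (alt m).comp (a m))
    (by rw [LinearMap.comp_apply, a2, b2])
    (by
      intro m hm g f u
      rw [LinearMap.comp_apply, heq m hm, b4]
      rfl)
    (by
      intro m hm f
      rw [LinearMap.comp_apply, a4 m (by omega), b5]
      rfl) Λ hΛ φ hδ hinv
  refine ⟨(alt (D + 1) (a (D + 1) φ)).1, ψ, b3 _ _, ?_, ?_, p1, p2⟩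
  · exact b1 _ _ _ (a1 (D + 1) (by omega) φ C hφ)
  · intro g u
    have h : Bdd.pull (fun x => A.tr g x) φ = φ := by
      apply Subtype.ext
      funext x
      exact hinv g x
    have h2 := heq (D + 1) le_rfl g φ
    rw [h] at h2
    conv_rhs => rw [h2, b4]
    rfl

theorem nerve_of (hO : OmegaStatement) (hT : TopStatement) (hB : HBStatement) :
    NerveStatement := by
  intro n
  obtain ⟨K, hK, h1⟩ := hO n
  obtain ⟨W, hW, h2⟩ := hT n
  refine ⟨W * K, mul_nonneg hW hK, ?_⟩
  intro N M _ _ vol hM S Z hZ hs hg c hc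
  have := hM.compact
  obtain ⟨L, hL⟩ := h1 N M vol hM S Z hZ hs hg
  refine hB n M c _ (by positivity) hc.1 ?_
  intro φ hφ hcoc
  obtain ⟨ω, ψ, G, hω, hG, rfl⟩ := hL φ hφ hcoc
  have h3 := h2 M Z L G ω hω K hK (fun z _ s => hG z s) c hc
  have h4 : H35.ev (n + 1) (A := ℝ) (ω + cob (A := ℝ) n ψ) c = H35.ev (n + 1) (A := ℝ) ω c := by
    rw [H35.ev_add, AddMonoidHom.add_apply, H35.ev_cob, hc.1, map_zero, add_zero]
  rw [h4]
  calc _ ≤ W * Z.card * K := h3
    _ = W * K * Z.card := by ring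

theorem main_of (hN : NerveStatement) (hA : ThmAStatement) (hV : RVolStatement)
    (hL : RLenStatement) (hS : LscStatement) (hM : MargStatement) : MainStatement := by
  intro n
  obtain ⟨K, hK, h1⟩ := hN n
  obtain ⟨C, hC, h2⟩ := hA (n + 1) (by omega)
  refine ⟨C * (K + 1), by positivity, ?_⟩
  intro M _ _ _ _ _ _ _ _ _ _ vol hvol c hc
  obtain ⟨hfin, hnear⟩ := hV (n + 1) M vol hvol
  have hlen := hL (n + 1) M
  have hlsc := hS (n + 1) M
  obtain ⟨hpc, hball, hlip, ⟨c₀, hc₀, hpos⟩, hreg⟩ := hM M hlen hlsc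
  have hgr : ENNReal.ofReal c₀ / 2 ≤ growthRadius (n + 1) vol := by
    unfold growthRadius
    refine le_sInf ?_
    rintro t ⟨x, rfl, -⟩
    exact ENNReal.div_le_div_right (hpos x) 2
  have hgr0 : 0 < growthRadius (n + 1) vol := by
    refine lt_of_lt_of_le ?_ hgr
    exact ENNReal.div_pos (by simpa using hc₀) (by simp)
  refine ⟨hgr0, fun hne => ?_⟩
  -- a good point with finite Margulis function
  obtain ⟨x₁, hx₁, hg₁⟩ : ∃ x : M, margulis x / 2 ≠ ⊤ ∧ ∀ r : ℝ, 0 < r →
      ENNReal.ofReal r ≤ margulis x / 2 →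
      ENNReal.ofReal (r ^ (n + 1) / ((n + 1).factorial : ℝ)) ≤ vol (Metric.ball x r) := by
    by_contra hcon
    push Not at hcon
    apply hne
    unfold growthRadius
    refine sInf_eq_top.mpr ?_
    rintro t ⟨x, rfl, hx⟩
    by_contra hx2
    obtain ⟨r, hr, hr2, hr3⟩ := hcon x hx2
    exact absurd (hx r hr hr2) (not_le.mpr hr3)
  have hx₁' : margulis x₁ ≠ ⊤ := by
    intro h
    rw [h] at hx₁
    exact hx₁ (ENNReal.top_div_of_ne_top (by simp))
  have hfinm : ∀ x : M, margulis x ≠ ⊤ := fun x =>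
    ne_top_of_le_ne_top (ENNReal.add_ne_top.mpr ⟨hx₁', ENNReal.ofReal_ne_top⟩) (hlip x x₁)
  set m : M → ℝ := fun x => (margulis x / 2).toReal with hm
  have hm2 : ∀ x, margulis x / 2 ≠ ⊤ := fun x => ENNReal.div_ne_top (hfinm x) (by simp)
  have hofm : ∀ x, ENNReal.ofReal (m x) = margulis x / 2 := fun x => ENNReal.ofReal_toReal (hm2 x)
  have hmpos : ∀ x, 0 < m x := by
    intro x
    refine ENNReal.toReal_pos ?_ (hm2 x)
    exact (lt_of_lt_of_le (ENNReal.div_pos (by simpa using hc₀) (by simp))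
      (ENNReal.div_le_div_right (hpos x) 2)).ne'
  have hmarg : ∀ x, margulis x = ENNReal.ofReal (2 * m x) := by
    intro x
    rw [ENNReal.ofReal_mul (by norm_num), hofm x]
    rw [show ENNReal.ofReal 2 = 2 by simp]
    rw [ENNReal.mul_div_cancel (by simp) (by simp)]
  have hmlip : ∀ x y, m x ≤ m y + dist x y := by
    intro x y
    have h := hlip x y
    rw [hmarg x, hmarg y, ← ENNReal.ofReal_add (by have := hmpos y; positivity)
      (by positivity)] at h
    have h3 := (ENNReal.ofReal_le_ofReal_iff (by have := hmpos y; positivity)).mp h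
    linarith
  set R : ℝ := (growthRadius (n + 1) vol).toReal with hR
  have hRpos : 0 < R := ENNReal.toReal_pos hgr0.ne' hne
  have hgood : ∀ x : M, (∀ r, 0 < r → r ≤ m x →
      ENNReal.ofReal (r ^ (n + 1) / ((n + 1).factorial : ℝ)) ≤ vol (Metric.ball x r)) →
      R ≤ m x := by
    intro x hx
    have h3 : growthRadius (n + 1) vol ≤ margulis x / 2 := by
      unfold growthRadius
      refine sInf_le ⟨x, rfl, fun r hr hr2 => hx r hr ?_⟩
      rw [← hofm x] at hr2
      exact (ENNReal.ofReal_le_ofReal_iff (hmpos x).le).mp hr2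
    exact ENNReal.toReal_mono (hm2 x) h3
  obtain ⟨N, S, Z, s1, s2, s3, s4, s5⟩ := h2 M vol hnear m hmpos hmlip R hRpos hgood
    ⟨x₁, fun r hr hr2 => hg₁ r hr (by rw [← hofm x₁]; exact ENNReal.ofReal_le_ofReal hr2)⟩
  have hb : simplicialVolume c ≤ K * Z.card := by
    refine h1 N M vol ⟨inferInstance, hpc, hball, hlsc⟩ S Z s2 s3 ?_ c hc
    intro k l x hx
    have hr : 0 < S.rad k l := lt_of_le_of_lt dist_nonneg hx
    refine hreg _ _ hr ?_ x hx
    rw [hmarg]
    refine (ENNReal.ofReal_lt_ofReal_iff (by have := hmpos (S.ctr k l); positivity)).mpr ?_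
    have := s1 k l
    linarith
  set v : ℝ := vol.real univ / R ^ (n + 1) with hv
  have hv0 : 0 ≤ v := by positivity
  have hlog : 0 ≤ Real.log (C * v) := Real.log_nonneg s4
  have hlog2 : Real.log (C * v) ≤ Real.log (C * (K + 1) * v) := by
    refine Real.log_le_log (by linarith) ?_
    nlinarith [mul_nonneg (mul_nonneg hC.le hK) hv0]
  calc simplicialVolume c ≤ K * Z.card := hb
    _ ≤ K * (C * v * (Real.log (C * v)) ^ (n + 1)) := by
        exact mul_le_mul_of_nonneg_left s5 hK
    _ ≤ (K + 1) * (C * v * (Real.log (C * v)) ^ (n + 1)) := by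
        have : 0 ≤ C * v * (Real.log (C * v)) ^ (n + 1) := by positivity
        nlinarith
    _ = C * (K + 1) * v * (Real.log (C * v)) ^ (n + 1) := by ring
    _ ≤ C * (K + 1) * v * (Real.log (C * (K + 1) * v)) ^ (n + 1) := by
        refine mul_le_mul_of_nonneg_left (pow_le_pow_left₀ hlog hlog2 _) (by positivity)

/-- Everything. -/
theorem main_assembly (a1 : StageStatement) (a2 : AvgStatement) (a3 : PrismStatement)
    (a4 : StepStatement) (a5 : BaseStatement)
    (hO : ContractionStatement → CompStatement → OmegaStatement)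
    (b1 : EqMeanStatement) (b2 : ChainStatement) (b3 : AltStatement) (b4 : HtpyStatement)
    (hT : TopStatement) (hB : HBStatement) (hA : ThmAStatement) (hV : RVolStatement)
    (hL : RLenStatement) (hS : LscStatement) (hM : MargStatement) : MainStatement :=
  main_of (nerve_of (hO (contraction_of a1 a2 a3 a4 a5) (comp_of b1 b2 b3 b4)) hT hB) hA hV hL
    hS hM

end

end Pool.Agent.Lib.MP_72b724_gt
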