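import Mathlib
import Pool.Agent.Lib.MP_89fcdb_gt.Stmt

/-!
# MP_72b724_gt: the definitions used by the final statement, first part

Growth of groups, the Margulis function, the growth radius and the simplicial volume.  Singular
simplices, integral singular chains, their boundary and the notion of a fundamental cycle are those
of `Pool.Agent.Lib.MP_89fcdb_gt.Stmt`.
-/

open scoped Manifold ContDiff ENNReal Topology Nat Pointwise
open MeasureTheory Set Filter Bundle Pool.Agent.Lib.MP_89fcdb_gt

namespace Pool.Agent.Lib.MP_72b724_gt

noncomputable section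

/-! ## Simplicial volume -/

/-- Singular `n`-chains with real coefficients. -/
abbrev RChain (n : ℕ) (X : Type) [TopologicalSpace X] : Type := Sing n X →₀ ℝ

section Chains

variable {X : Type} [TopologicalSpace X]

/-- The boundary of a real singular chain: `∂σ = ∑ (-1)^i σ ∘ d^i`. -/
def rbdry (n : ℕ) : RChain (n + 1) X →ₗ[ℝ] RChain n X :=
  Finsupp.lsum ℝ (fun σ => ∑ i : Fin (n + 2), ((-1 : ℝ) ^ (i : ℕ)) • Finsupp.lsingle (σ.face i))

/-- The `ℓ¹`-norm of a real chain. -/
def l1norm {n : ℕ} (z : RChain n X) : ℝ := z.sum (fun _ a => |a|)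

/-- The real chain given by an integral chain. -/
def toReal {n : ℕ} (c : Chain n X) : RChain n X := c.mapRange (fun k : ℤ => (k : ℝ)) Int.cast_zero

/-- The simplicial norm of the real homology class of the integral cycle `c`: the infimum of the
`ℓ¹`-norms of the real chains homologous to `c`. If `c` is a fundamental cycle of a closed
oriented manifold, this is its simplicial volume. -/
def simplicialVolume {n : ℕ} (c : Chain n X) : ℝ :=
  sInf {r : ℝ | ∃ b : RChain (n + 1) X, r = l1norm (toReal c + rbdry n b)}

end Chains

/-! ## Growth -/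

/-- A group has subexponential growth if for every finite subset `S` and every `b > 1` the set of
products of `k` elements of `S` has at most `b^k` elements for all large `k`. -/
def SubexpGrowth (G : Type) [Group G] : Prop :=
  ∀ S : Set G, S.Finite → ∀ b : ℝ, 1 < b → ∀ᶠ k : ℕ in atTop, ((S ^ k).ncard : ℝ) ≤ b ^ k

section Metric

variable {M : Type} [MetricSpace M]

/-- The subgroup of `π₁(M, x)` generated by the loops based at `x` of length at most `m` (the
length of a continuous path in a metric space). -/
def shortLoops (x : M) (m : ℝ) : Subgroup (FundamentalGroup M x) :=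
  Subgroup.closure {g | ∃ γ : Path x x, eVariationOn γ univ ≤ ENNReal.ofReal m ∧
    g = FundamentalGroup.fromPath (Path.Homotopic.Quotient.mk γ)}

/-- The Margulis function: the supremum of the `m` for which the loops based at `x` of length at
most `m` generate a subgroup of subexponential growth. -/
def margulis (x : M) : ℝ≥0∞ :=
  sSup {t : ℝ≥0∞ | ∃ m : ℝ, t = ENNReal.ofReal m ∧ SubexpGrowth (shortLoops x m)}

/-- The growth radius: the infimum of `μ(x)/2` over the points `x` such that
`vol (B(x, r)) ≥ r^n / n!` for all `r ≤ μ(x)/2`. -/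
def growthRadius (n : ℕ) [MeasurableSpace M] (vol : Measure M) : ℝ≥0∞ :=
  sInf {t : ℝ≥0∞ | ∃ x : M, t = margulis x / 2 ∧
    ∀ r : ℝ, 0 < r → ENNReal.ofReal r ≤ margulis x / 2 →
      ENNReal.ofReal (r ^ n / (n ! : ℝ)) ≤ vol (Metric.ball x r)}

end Metric

end

end Pool.Agent.Lib.MP_72b724_gt
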