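import Pool.Agent.Lib.MP_72b724_gt.Stmt
import Pool.Agent.Lib.MP_904b2a_gt.SmallC

/-!
# MP_72b724_gt: definitions used in the proof
-/

open scoped ENNReal Topology Nat BigOperators
open MeasureTheory Set Filter Pool.Agent.Lib.MP_904b2a_gt Pool.Agent.Lib.MP_89fcdb_gt

namespace Pool.Agent.Lib.MP_72b724_gt

noncomputable section

/-! ## Part A: metric measure spaces -/

section PartA

/-- The standard Euclidean space. -/
abbrev EE (n : ℕ) : Type := EuclideanSpace ℝ (Fin n)

/-- `ψ` is a parametrisation of a neighbourhood of `ψ 0` by the open set `W`. -/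
structure IsParam {n : ℕ} {M : Type} [MetricSpace M] (ψ : EE n → M) (W : Set (EE n)) : Prop where
  isOpen : IsOpen W
  zero_mem : (0 : EE n) ∈ W
  injOn : InjOn ψ W
  cont : ContinuousOn ψ W
  isOpenMap : ∀ V ⊆ W, IsOpen V → IsOpen (ψ '' V)

/-- `ψ` is nearly isometric and nearly does not decrease volumes at `v`, after the linear change of
variables `T`. -/
def NearIso {n : ℕ} {M : Type} [MetricSpace M] [MeasurableSpace M] (vol : Measure M)
    (ψ : EE n → M) (W : Set (EE n)) (v : EE n) (T : EE n ≃L[ℝ] EE n) : Prop :=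
  ∀ δ : ℝ, 0 < δ → ∃ ρ : ℝ, 0 < ρ ∧
    (∀ u ∈ Metric.ball (0 : EE n) ρ, v + T u ∈ W) ∧
    (∀ u ∈ Metric.ball (0 : EE n) ρ, ∀ u' ∈ Metric.ball (0 : EE n) ρ,
      dist (ψ (v + T u)) (ψ (v + T u')) ≤ (1 + δ) * dist u u') ∧
    (∀ B ⊆ Metric.ball (0 : EE n) ρ, MeasurableSet B →
      ENNReal.ofReal (1 - δ) * volume B ≤ vol ((fun u => ψ (v + T u)) '' B))

/-- The metric measure space `M` is infinitesimally Euclidean (an upper bound of distances and a
lower bound of volumes in suitable parametrisations). -/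
def NearEuc (n : ℕ) (M : Type) [MetricSpace M] [MeasurableSpace M] (vol : Measure M) : Prop :=
  ∀ z : M, ∃ (ψ : EE n → M) (W : Set (EE n)), IsParam ψ W ∧ ψ 0 = z ∧
    ∀ v ∈ W, ∃ T : EE n ≃L[ℝ] EE n, NearIso vol ψ W v T

variable {M : Type} [MetricSpace M]

/-- `z` is a regular point of `F : M → ℝⁿ`: there is a parametrisation of a neighbourhood of `z`,
nearly isometric at `0`, in which `F` is differentiable at `0` with invertible derivative. -/
def Regular {n : ℕ} [MeasurableSpace M] (vol : Measure M) (F : M → Fin n → ℝ) (z : M) : Prop :=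
  ∃ (ψ : EE n → M) (W : Set (EE n)), IsParam ψ W ∧ ψ 0 = z ∧
    NearIso vol ψ W 0 (ContinuousLinearEquiv.refl ℝ (EE n)) ∧
    ∃ L : EE n ≃L[ℝ] (Fin n → ℝ), HasFDerivAt (fun v => F (ψ v)) (L : EE n →L[ℝ] (Fin n → ℝ)) 0

section Lists

variable {ι : Type} (f : ι → M → ℝ)

/-- The slab of thickness `ε` of a list of sublevel sets `{f i < ρ}`; the head of the list
dominates the tail. -/
def Slab (ε : ℝ) : List (ι × ℝ) → Set M
  | [] => ∅
  | p :: L => {x | p.2 ≤ f p.1 x ∧ f p.1 x < p.2 + ε} ∪ ({x | p.2 ≤ f p.1 x} ∩ Slab ε L)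

/-- The separating set of a list of sublevel sets; the head of the list dominates the tail. -/
def Wall : List (ι × ℝ) → Set M
  | [] => ∅
  | p :: L => {x | f p.1 x = p.2} ∪ ({x | p.2 ≤ f p.1 x} ∩ Wall L)

/-- The sublevel sets of the list cover `M`. -/
def Covers (L : List (ι × ℝ)) : Prop := ∀ x : M, ∃ p ∈ L, f p.1 x < p.2

/-- Genericity of a list, defined by hereditary almost everywhere conditions: `Gen q l` for a list
`l` with `q` more entries allowed. -/
def Gen0 (P : List (ι × ℝ) → Prop) : ℕ → List (ι × ℝ) → Prop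
  | 0, l => P l
  | (q + 1), l => P l ∧ ∀ i : ι, ∀ᵐ s : ℝ, Gen0 P q ((i, s) :: l)

end Lists

/-- The stratified separating data used in Part B: for each `k : Fin n` a list of length `N` of
`1`-Lipschitz functions, later ones dominate; `{u ≤ 0}` lies in the ball of centre `ctr` and radius
`rad`. -/
structure SepSys (n N : ℕ) (M : Type) [MetricSpace M] where
  u : Fin n → Fin N → M → ℝ
  ctr : Fin n → Fin N → M
  rad : Fin n → Fin N → ℝ
  lip : ∀ k l, LipschitzWith 1 (u k l)
  cov : ∀ k x, ∃ l, u k l x < 0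
  reg : ∀ k l x, u k l x ≤ 0 → dist x (ctr k l) < rad k l

/-- The walls of a system. -/
def SepSys.wall {n N : ℕ} (S : SepSys n N M) (k : Fin n) : Set M :=
  {x | ∃ l, S.u k l x = 0 ∧ ∀ j, l < j → 0 ≤ S.u k j x}

/-- `z` is a simple crossing point of the walls of the system. -/
def SepSys.Simple {n N : ℕ} [MeasurableSpace M] (vol : Measure M) (S : SepSys n N M) (z : M) :
    Prop :=
  ∃ a : Fin n → Fin N, (∀ k, S.u k (a k) z = 0) ∧ (∀ k j, j ≠ a k → S.u k j z ≠ 0) ∧
    Regular vol (fun x k => S.u k (a k) x) z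

end PartA

/-! ## Part B1: simplicial sets and bounded contractions -/

section PartB1

/-- Simplicial sets, unbundled. -/
structure SimpSet where
  X : ℕ → Type
  map : ∀ {m k : ℕ}, (Fin (k + 1) →o Fin (m + 1)) → X m → X k
  map_id : ∀ {m : ℕ} (x : X m), map OrderHom.id x = x
  map_comp : ∀ {m k l : ℕ} (f : Fin (k + 1) →o Fin (m + 1)) (g : Fin (l + 1) →o Fin (k + 1))
    (x : X m), map g (map f x) = map (f.comp g) x

/-- The `i`-th coface. -/
def cofc {m : ℕ} (i : Fin (m + 2)) : Fin (m + 1) →o Fin (m + 2) := (Fin.succAboveOrderEmb i).toOrderHom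

/-- The `i`-th face. -/
def SimpSet.d (S : SimpSet) {m : ℕ} (i : Fin (m + 2)) : S.X (m + 1) → S.X m := S.map (cofc i)

/-- The `i`-th vertex. -/
def SimpSet.vtx (S : SimpSet) {m : ℕ} (i : Fin (m + 1)) : S.X m → S.X 0 :=
  S.map (OrderHom.const (Fin (0 + 1)) i)

/-- Semisimplicial sets. -/
structure FSet where
  X : ℕ → Type
  d : ∀ {m : ℕ}, Fin (m + 2) → X (m + 1) → X m
  dd : ∀ {m : ℕ} (i j : Fin (m + 2)), i ≤ j → ∀ x : X (m + 2),
    d i (d j.succ x) = d j (d i.castSucc x)

theorem SimpSet.dd (S : SimpSet) {m : ℕ} (i j : Fin (m + 2)) (h : i ≤ j) (x : S.X (m + 2)) :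
    S.d i (S.d j.succ x) = S.d j (S.d i.castSucc x) := by
  unfold SimpSet.d
  rw [S.map_comp, S.map_comp]
  congr 1
  ext a
  simp only [cofc, OrderHom.comp_coe, Function.comp_apply, OrderEmbedding.toOrderHom_coe,
    Fin.succAboveOrderEmb_apply]
  simp only [Fin.succAbove, Fin.lt_def, Fin.le_def] at *
  split_ifs <;> simp at * <;> omega

/-- The semisimplicial set of a simplicial set. -/
def SimpSet.toF (S : SimpSet) : FSet where
  X := S.X
  d := S.d
  dd := S.dd

/-- Bounded functions. -/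
def Bdd (α : Type) : Submodule ℝ (α → ℝ) where
  carrier := {f | ∃ C : ℝ, ∀ x, |f x| ≤ C}
  add_mem' := by
    rintro f g ⟨C, hC⟩ ⟨D, hD⟩
    exact ⟨C + D, fun x => (abs_add_le _ _).trans (add_le_add (hC x) (hD x))⟩
  zero_mem' := ⟨0, fun x => by simp⟩
  smul_mem' := by
    rintro c f ⟨C, hC⟩
    exact ⟨|c| * C, fun x => by
      rw [Pi.smul_apply, smul_eq_mul, abs_mul]
      exact mul_le_mul_of_nonneg_left (hC x) (abs_nonneg c)⟩

/-- Constant functions. -/
def Bdd.const {α : Type} (c : ℝ) : Bdd α := ⟨fun _ => c, |c|, fun _ => le_rfl⟩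

/-- The pull-back of bounded functions. -/
def Bdd.pull {α β : Type} (g : α → β) : Bdd β →ₗ[ℝ] Bdd α where
  toFun f := ⟨fun x => f.1 (g x), f.2.imp fun _ h x => h (g x)⟩
  map_add' _ _ := rfl
  map_smul' _ _ := rfl

/-- `f` is bounded by `C`. -/
def Bdd.Le {α : Type} (f : Bdd α) (C : ℝ) : Prop := ∀ x, |f.1 x| ≤ C

/-- The coboundary of bounded cochains. -/
def FSet.δ (F : FSet) {m : ℕ} : Bdd (F.X m) →ₗ[ℝ] Bdd (F.X (m + 1)) :=
  ∑ i : Fin (m + 2), ((-1 : ℝ) ^ (i : ℕ)) • Bdd.pull (F.d i)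

/-- `F` has a contracting homotopy of its augmented complex of bounded cochains, in degrees `≤ N`,
with norm at most `c`. -/
def HasBC (F : FSet) (N : ℕ) (c : ℝ) : Prop :=
  ∃ (k₀ : Bdd (F.X 0) →ₗ[ℝ] ℝ) (k : ∀ m : ℕ, Bdd (F.X (m + 1)) →ₗ[ℝ] Bdd (F.X m)),
    (∀ f C, Bdd.Le f C → |k₀ f| ≤ c * C) ∧
    (∀ m ≤ N, ∀ f C, Bdd.Le f C → Bdd.Le (k m f) (c * C)) ∧
    k₀ (Bdd.const 1) = 1 ∧
    (∀ f : Bdd (F.X 0), k 0 (F.δ f) + Bdd.const (k₀ f) = f) ∧
    (∀ m < N, ∀ f : Bdd (F.X (m + 1)), k (m + 1) (F.δ f) + F.δ (k m f) = f)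

/-- A mean on `G` which is invariant under left translations. -/
structure InvMean (G : Type) [Group G] where
  m : Bdd G →ₗ[ℝ] ℝ
  one : m (Bdd.const 1) = 1
  le : ∀ f C, Bdd.Le f C → |m f| ≤ C
  inv : ∀ (g : G) (f : Bdd G), m (Bdd.pull (fun x => g * x) f) = m f

/-- A mean on an abelian group which is invariant under translations. -/
structure AddMean (G : Type) [AddCommGroup G] where
  m : Bdd G →ₗ[ℝ] ℝ
  one : m (Bdd.const 1) = 1
  le : ∀ f C, Bdd.Le f C → |m f| ≤ C
  inv : ∀ (g : G) (f : Bdd G), m (Bdd.pull (fun x => g + x) f) = m f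

/-- A base point of a simplicial set (the degenerate simplices on a vertex). -/
structure SimpSet.Pt (S : SimpSet) where
  pt : ∀ m : ℕ, S.X m
  map_pt : ∀ {m k : ℕ} (f : Fin (k + 1) →o Fin (m + 1)), S.map f (pt m) = pt k

/-- The Kan condition, in terms of elements, for horns of dimension at least two. -/
def SimpSet.Kan (S : SimpSet) : Prop :=
  ∀ (m : ℕ) (k : Fin (m + 3)) (y : Fin (m + 3) → S.X (m + 1)),
    (∀ i j : Fin (m + 2), i ≤ j → i.castSucc ≠ k → j.succ ≠ k →
      S.d i (y j.succ) = S.d j (y i.castSucc)) →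
    ∃ x : S.X (m + 2), ∀ i, i ≠ k → S.d i x = y i

/-- Every vertex is joined to the base point. -/
def SimpSet.PathConn (S : SimpSet) (P : S.Pt) : Prop :=
  ∀ x : S.X 0, ∃ y : S.X 1, S.d 0 y = x ∧ S.d 1 y = P.pt 0

/-- Every loop at the base point bounds. -/
def SimpSet.SimplyConn (S : SimpSet) (P : S.Pt) : Prop :=
  ∀ x : S.X 1, S.d 0 x = P.pt 0 → S.d 1 x = P.pt 0 →
    ∃ y : S.X 2, S.d 0 y = x ∧ S.d 1 y = P.pt 1 ∧ S.d 2 y = P.pt 1

/-- All the faces of dimension `< k` of `x` are the base point. -/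
def SimpSet.Triv (S : SimpSet) (P : S.Pt) (k : ℕ) {m : ℕ} (x : S.X m) : Prop :=
  ∀ (j : ℕ) (g : Fin (j + 1) →o Fin (m + 1)), j < k → S.map g x = P.pt j

theorem SimpSet.Triv.map {S : SimpSet} {P : S.Pt} {k m l : ℕ} {x : S.X m} (h : S.Triv P k x)
    (f : Fin (l + 1) →o Fin (m + 1)) : S.Triv P k (S.map f x) := by
  intro j g hj
  rw [S.map_comp]
  exact h j _ hj

/-- The Eilenberg subcomplex: simplices whose faces of dimension `< k` are trivial. -/
def SimpSet.Eil (S : SimpSet) (P : S.Pt) (k : ℕ) : FSet where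
  X m := {x : S.X m // S.Triv P k x}
  d i x := ⟨S.d i x.1, x.2.map _⟩
  dd i j h x := Subtype.ext (S.dd i j h x.1)

/-- The data of stage `k` of the tower: an abelian group `π`, a cocycle `κ` and representatives
`α`, such that `(σ, α ψ₀, ..., α ψ_k)` is the boundary of a simplex if `∑ (-1)^i ψ_i = κ σ`. -/
structure Stage (S : SimpSet) (P : S.Pt) (k : ℕ) where
  π : Type
  inst : AddCommGroup π
  κ : (S.Eil P k).X k → π
  α : π → (S.Eil P k).X k
  coc : ∀ τ : (S.Eil P k).X (k + 1),
    ∑ i : Fin (k + 2), ((-1 : ℤ) ^ (i : ℕ)) • κ ((S.Eil P k).d i τ) = 0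
  fill : ∀ (σ : (S.Eil P k).X k) (ψ : Fin (k + 1) → π),
    ∑ i : Fin (k + 1), ((-1 : ℤ) ^ (i : ℕ)) • ψ i = κ σ →
    ∃ y : S.X (k + 1), S.d 0 y = σ.1 ∧ ∀ i : Fin (k + 1), S.d i.succ y = (α (ψ i)).1
  pt : k = 0 → ∀ a, (α a).1 = P.pt k

attribute [instance] Stage.inst

/-- Strictly increasing maps. -/
abbrev Inc (k m : ℕ) : Type := Fin k ↪o Fin m

/-- The semisimplicial set `E` over the Eilenberg subcomplex: simplices `σ` with a cochain `ψ` of
degree `k - 1` such that `δψ = σ^* κ`. -/
def Stage.E {S : SimpSet} {P : S.Pt} {k : ℕ} (T : Stage S P k) : FSet where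
  X m := {e : (S.Eil P k).X m × (Inc k (m + 1) → T.π) //
    ∀ F : Inc (k + 1) (m + 1),
      ∑ i : Fin (k + 1), ((-1 : ℤ) ^ (i : ℕ)) • e.2 ((Fin.succAboveOrderEmb i).trans F) =
        T.κ ⟨S.map F.toOrderHom e.1.1, e.1.2.map _⟩}
  d i e := ⟨((S.Eil P k).d i e.1.1, fun F => e.1.2 (F.trans (Fin.succAboveOrderEmb i))), by
    intro F
    have := e.2 (F.trans (Fin.succAboveOrderEmb i))
    refine this.trans ?_
    congr 1
    apply Subtype.ext
    change _ = S.map _ (S.map _ _)
    rw [S.map_comp]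
    rfl⟩
  dd i j h e := by
    apply Subtype.ext
    refine Prod.ext ((S.Eil P k).dd i j h e.1.1) ?_
    funext F
    refine congrArg e.1.2 (DFunLike.ext _ _ fun a => Fin.ext ?_)
    simp only [RelEmbedding.coe_trans, Function.comp_apply, Fin.succAboveOrderEmb_apply]
    generalize F a = b
    simp only [Fin.succAbove, Fin.lt_def, Fin.le_def] at *
    split_ifs <;> simp at * <;> omega

/-- The projection of `E`. -/
def Stage.proj {S : SimpSet} {P : S.Pt} {k : ℕ} (T : Stage S P k) {m : ℕ} (e : T.E.X m) :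
    (S.Eil P k).X m := e.1.1

end PartB1

/-! ## Part B2: actions and the comparison -/

section PartB2

/-- An action of a group on a simplicial set. -/
structure SimpSet.Act (S : SimpSet) (Γ : Type) [Group Γ] where
  act : ∀ m : ℕ, MulAction Γ (S.X m)
  map_smul : ∀ {m k : ℕ} (f : Fin (k + 1) →o Fin (m + 1)) (g : Γ) (x : S.X m),
    S.map f ((act m).smul g x) = (act k).smul g (S.map f x)
  free : ∀ {m : ℕ} (g : Γ) (x : S.X m), (act m).smul g x = x → g = 1

/-- The translate of a simplex. -/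
def SimpSet.Act.tr {S : SimpSet} {Γ : Type} [Group Γ] (A : S.Act Γ) (g : Γ) {m : ℕ} (x : S.X m) :
    S.X m := (A.act m).smul g x

/-- Alternating functions of `m` variables. -/
def IsAlt {X : Type} {m : ℕ} (G : (Fin m → X) → ℝ) : Prop :=
  ∀ (s : Equiv.Perm (Fin m)) (u : Fin m → X), G (fun i => u (s i)) = (Equiv.Perm.sign s : ℤ) * G u

end PartB2

/-! ## The universal cover -/

section Cover

variable {M : Type} [TopologicalSpace M]

/-- The points of the universal cover: points with a homotopy class of paths from `x₀`. -/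
abbrev Cov (x₀ : M) : Type := Σ x : M, Path.Homotopic.Quotient x₀ x

/-- The action of the fundamental group on the points of the universal cover. -/
def Cov.tr {x₀ : M} (g : FundamentalGroup M x₀) (p : Cov x₀) : Cov x₀ :=
  ⟨p.1, (g⁻¹ : FundamentalGroup M x₀).toPath.trans p.2⟩

/-- Segments in the standard simplex. -/
def segm {m : ℕ} (p q : Simp m) : C(unitInterval, Simp m) where
  toFun t := ⟨fun i => (1 - (t : ℝ)) * p i + (t : ℝ) * q i, by
    constructor
    · intro i
      have h1 := t.2.1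
      have h2 := t.2.2
      have h3 := p.2.1 i
      have h4 := q.2.1 i
      have h5 : 0 ≤ 1 - (t : ℝ) := by linarith
      exact add_nonneg (mul_nonneg h5 h3) (mul_nonneg h1 h4)
    · have h3 : ∑ i, p i = 1 := p.2.2
      have h4 : ∑ i, q i = 1 := q.2.2
      change ∑ i, ((1 - (t : ℝ)) * p i + (t : ℝ) * q i) = 1
      rw [Finset.sum_add_distrib, ← Finset.mul_sum, ← Finset.mul_sum, h3, h4]
      ring⟩
  continuous_toFun := by
    apply Continuous.subtype_mk
    fun_prop

/-- The path given by a continuous function on a simplex and a segment. -/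
def segPath {m : ℕ} {f : Simp m → M} (h : Continuous f) (p q : Simp m) : Path (f p) (f q) where
  toFun t := f (segm p q t)
  continuous_toFun := h.comp (segm p q).continuous
  source' := by
    congr 1
    apply Subtype.ext
    funext i
    change (1 - ((0 : unitInterval) : ℝ)) * p i + ((0 : unitInterval) : ℝ) * q i = p i
    simp
  target' := by
    congr 1
    apply Subtype.ext
    funext i
    change (1 - ((1 : unitInterval) : ℝ)) * p i + ((1 : unitInterval) : ℝ) * q i = q i
    simp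

/-- The condition on a map from a simplex to the universal cover. -/
def IsLift {x₀ : M} {m : ℕ} (f : Simp m → Cov x₀) : Prop :=
  ∃ h : Continuous (fun p => (f p).1), ∀ p q : Simp m,
    (f q).2 = (f p).2.trans (Path.Homotopic.Quotient.mk (segPath h p q))

/-- The singular simplices of the universal cover. -/
def USimp (x₀ : M) (m : ℕ) : Type := {f : Simp m → Cov x₀ // IsLift f}

/-- The projection to the singular simplices of `M`. -/
def USimp.proj {x₀ : M} {m : ℕ} (f : USimp x₀ m) : Sing m M := ⟨fun p => (f.1 p).1, f.2.choose⟩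

/-- The translate of a simplex of the universal cover. -/
def USimp.tr {x₀ : M} {m : ℕ} (g : FundamentalGroup M x₀) (f : USimp x₀ m) : USimp x₀ m :=
  ⟨fun p => Cov.tr g (f.1 p), f.2.choose, fun p q => by
    have h := f.2.choose_spec p q
    change Path.Homotopic.Quotient.trans _ (f.1 q).2 = _
    rw [h]
    exact (Path.Homotopic.Quotient.trans_assoc _ _ _).symm⟩

theorem segm_smap {m k : ℕ} (g : Fin (k + 1) → Fin (m + 1)) (p q : Simp k) (t : unitInterval) :
    smap g (segm p q t) = segm (smap g p) (smap g q) t := by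
  apply Subtype.ext
  funext l
  change (smap g (segm p q t)) l = (1 - (t : ℝ)) * (smap g p) l + (t : ℝ) * (smap g q) l
  rw [smap_apply, smap_apply, smap_apply, Finset.mul_sum, Finset.mul_sum, ← Finset.sum_add_distrib]
  refine Finset.sum_congr rfl fun x _ => ?_
  split_ifs
  · rfl
  · simp

/-- The simplicial set of the singular simplices of the universal cover. -/
def covS (x₀ : M) : SimpSet where
  X := USimp x₀
  map g f := ⟨fun p => f.1 (smap g p), f.2.choose.comp (smap g).continuous, fun p q => by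
    refine (f.2.choose_spec (smap g p) (smap g q)).trans ?_
    congr 2
    ext t
    change (f.1 (segm (smap g p) (smap g q) t)).1 = (f.1 (smap g (segm p q t))).1
    rw [segm_smap]⟩
  map_id f := by
    apply Subtype.ext
    funext p
    exact congrArg f.1 (DFunLike.congr_fun (smap_id _) p)
  map_comp {m k l} g g' f := by
    apply Subtype.ext
    funext p
    exact congrArg f.1 (DFunLike.congr_fun (smap_comp g g') p)

end Cover

end

end Pool.Agent.Lib.MP_72b724_gt
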