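import Pool.Agent.Lib.MP_72b724_gt.Basic

/-!
# MP_72b724_gt: Riemannian volume, and the main statement used in the proof

The definitions used by the final statement are in `Basic.lean` and `Manifold.lean`.
-/

open scoped Manifold ContDiff ENNReal Topology Nat Pointwise
open MeasureTheory Set Filter Bundle Pool.Agent.Lib.MP_89fcdb_gt

namespace Pool.Agent.Lib.MP_72b724_gt

noncomputable section

/-! ## Riemannian volume -/

section Riem

variable {n : ℕ} {M : Type} [MetricSpace M] [ChartedSpace (EuclideanSpace ℝ (Fin n)) M]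
  [RiemannianBundle (fun (x : M) => TangentSpace (𝓡 n) x)]

/-- The Gram matrix of the coordinate vector fields of the chart at `x`, at the point with
coordinates `y`. -/
def gram (x : M) (y : EuclideanSpace ℝ (Fin n)) : Matrix (Fin n) (Fin n) ℝ :=
  Matrix.of fun i j => inner ℝ
    (mfderiv 𝓘(ℝ, EuclideanSpace ℝ (Fin n)) (𝓡 n) (extChartAt (𝓡 n) x).symm y
      (EuclideanSpace.single i (1 : ℝ)) : TangentSpace (𝓡 n) ((extChartAt (𝓡 n) x).symm y))
    (mfderiv 𝓘(ℝ, EuclideanSpace ℝ (Fin n)) (𝓡 n) (extChartAt (𝓡 n) x).symm y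
      (EuclideanSpace.single j (1 : ℝ)))

/-- `vol` is the Riemannian volume: it is given by `√det(gᵢⱼ) dy` in all (preferred) charts. -/
def IsRiemannianVolume [MeasurableSpace M] (vol : Measure M) : Prop :=
  ∀ (x : M) (A : Set M), MeasurableSet A → A ⊆ (chartAt (EuclideanSpace ℝ (Fin n)) x).source →
    vol A = ∫⁻ y in (extChartAt (𝓡 n) x) '' A, ENNReal.ofReal (√((gram x y).det))

end Riem

/-- The statement. -/
def MainStatement : Prop :=
  ∀ n : ℕ, ∃ C : ℝ, 0 < C ∧
    ∀ (M : Type) [MetricSpace M] [CompactSpace M] [ConnectedSpace M]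
      [ChartedSpace (EuclideanSpace ℝ (Fin (n + 1))) M] [IsManifold (𝓡 (n + 1)) ∞ M]
      [RiemannianBundle (fun (x : M) => TangentSpace (𝓡 (n + 1)) x)]
      [IsContMDiffRiemannianBundle (𝓡 (n + 1)) ∞ (EuclideanSpace ℝ (Fin (n + 1)))
        (fun (x : M) => TangentSpace (𝓡 (n + 1)) x)]
      [IsRiemannianManifold (𝓡 (n + 1)) M] [MeasurableSpace M] [BorelSpace M]
      (vol : Measure M), IsRiemannianVolume (n := n + 1) vol →
      ∀ c : Chain (n + 1) M, IsFundamental c →
        0 < growthRadius (n + 1) vol ∧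
        (growthRadius (n + 1) vol ≠ ⊤ →
          simplicialVolume c ≤
            C * (vol.real univ / (growthRadius (n + 1) vol).toReal ^ (n + 1)) *
              (Real.log (C * (vol.real univ / (growthRadius (n + 1) vol).toReal ^ (n + 1)))) ^
                (n + 1))

end

end Pool.Agent.Lib.MP_72b724_gt
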