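import Pool.Agent.Lib.MP_72b724_gt.Defs
import Pool.Agent.Lib.MP_89fcdb_gt.H35.UC

/-!
# MP_72b724_gt: interfaces between the modules (statements only)

Every module proves one of the statements `...Statement` below (possibly from others, as said).
-/

open scoped ENNReal Topology BigOperators
open MeasureTheory Set Filter Topology Pool.Agent.Lib.MP_904b2a_gt Pool.Agent.Lib.MP_89fcdb_gt

namespace Pool.Agent.Lib.MP_72b724_gt

noncomputable section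

/-! ## Part B1: bounded contraction of a simply connected Kan complex -/

/-- [HAT] the combinatorial homotopy addition theorem. `R x` says that `x` is the boundary of a
`(k+1)`-simplex; `y i j` labels the edges of the complete graph on `k + 3` vertices. -/
def HatStatement : Prop :=
  ∀ k : ℕ, 2 ≤ k → ∀ (X : Type) (e : X) (R : (Fin (k + 2) → X) → Prop),
    (∀ (i : Fin (k + 2)) (x : Fin (k + 2) → X), ∃ a : X, R (Function.update x i a)) →
    (∀ y : Fin (k + 3) → Fin (k + 3) → X, (∀ i j, y i j = y j i) → ∀ j₀ : Fin (k + 3),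
      (∀ j, j ≠ j₀ → R (fun i => y j (j.succAbove i))) → R (fun i => y j₀ (j₀.succAbove i))) →
    (∀ (i : Fin (k + 1)) (x : X), R (fun j => if j = i.castSucc ∨ j = i.succ then x else e)) →
    ∃ (π : Type) (_ : AddCommGroup π) (κ : X → π), Function.Surjective κ ∧
      ∀ x : Fin (k + 2) → X, R x ↔ ∑ i : Fin (k + 2), ((-1 : ℤ) ^ (i : ℕ)) • κ (x i) = 0

/-- [STAGE] (uses [HAT]) -/
def StageStatement : Prop :=
  ∀ (S : SimpSet) (P : S.Pt), S.Kan → S.PathConn P → S.SimplyConn P →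
    ∀ k : ℕ, Nonempty (Stage S P k)

/-- The coboundary of cochains on strictly increasing tuples. -/
def dI {π : Type} [AddCommGroup π] {k n : ℕ} (z : Inc k n → π) (F : Inc (k + 1) n) : π :=
  ∑ i : Fin (k + 1), ((-1 : ℤ) ^ (i : ℕ)) • z ((Fin.succAboveOrderEmb i).trans F)

/-- [EXACT] the augmented cochain complex of a simplex is exact. -/
def ExactStatement : Prop :=
  ∀ (π : Type) [AddCommGroup π] (n : ℕ),
    (∀ z : Inc 0 (n + 1) → π, dI z = 0 → z = 0) ∧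
    ∀ (k : ℕ) (z : Inc (k + 1) (n + 1) → π), dI z = 0 → ∃ u : Inc k (n + 1) → π, dI u = z

/-- [ITMEAN] iterated means, compatible with the coface maps. -/
def ItMeanStatement : Prop :=
  ∀ (π : Type) [AddCommGroup π], Nonempty (AddMean π) → ∀ k : ℕ,
    ∃ μ : ∀ n : ℕ, Bdd (Inc k n → π) →ₗ[ℝ] ℝ,
      (∀ n, μ n (Bdd.const 1) = 1) ∧ (∀ n f C, Bdd.Le f C → |μ n f| ≤ C) ∧
      (∀ n (v : Inc k n → π) f, μ n (Bdd.pull (fun u => v + u) f) = μ n f) ∧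
      ∀ n (i : Fin (n + 1)) (f : Bdd (Inc k n → π)),
        μ (n + 1) (Bdd.pull (fun u F => u (F.trans (Fin.succAboveOrderEmb i))) f) = μ n f

/-- The averaging operators. -/
def HasAvg {S : SimpSet} {P : S.Pt} {k : ℕ} (T : Stage S P k) : Prop :=
  ∃ Av : ∀ m : ℕ, Bdd (T.E.X m) →ₗ[ℝ] Bdd ((S.Eil P k).X m),
    (∀ m f C, Bdd.Le f C → Bdd.Le (Av m f) C) ∧
    (∀ m f, Av m (Bdd.pull T.proj f) = f) ∧
    ∀ m (i : Fin (m + 2)) (f : Bdd (T.E.X m)),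
      Av (m + 1) (Bdd.pull (T.E.d i) f) = Bdd.pull ((S.Eil P k).d i) (Av m f)

/-- [AVG] (uses [EXACT], [ITMEAN], [ABMEAN]) -/
def AvgStatement : Prop := ∀ (S : SimpSet) (P : S.Pt) (k : ℕ) (T : Stage S P k), HasAvg T

/-- The inclusion of the Eilenberg subcomplexes. -/
def SimpSet.Eil.incl {S : SimpSet} {P : S.Pt} {k m : ℕ} (x : (S.Eil P (k + 1)).X m) :
    (S.Eil P k).X m := ⟨x.1, fun j g hj => x.2 j g (Nat.lt_succ_of_lt hj)⟩

/-- The identities of a simplicial homotopy `h` from `p` to `q`. -/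
structure IsPrism (E F : FSet) (p q : ∀ m, E.X m → F.X m) (h : ∀ m, E.X m → Fin (m + 1) → F.X (m + 1)) :
    Prop where
  bot : ∀ m e, F.d 0 (h m e 0) = p m e
  top : ∀ m e, F.d (Fin.last (m + 1)) (h m e (Fin.last m)) = q m e
  low : ∀ m (e : E.X (m + 1)) (i : Fin (m + 2)) (j : Fin (m + 1)), (i : ℕ) ≤ j →
    F.d i.castSucc (h (m + 1) e j.succ) = h m (E.d i e) j
  upp : ∀ m (e : E.X (m + 1)) (i : Fin (m + 2)) (j : Fin (m + 1)), (j : ℕ) < i →
    F.d i.succ (h (m + 1) e j.castSucc) = h m (E.d i e) j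
  mid : ∀ m (e : E.X (m + 1)) (j : Fin (m + 1)),
    F.d j.succ.castSucc (h (m + 1) e j.succ) = F.d j.succ.castSucc (h (m + 1) e j.castSucc)

/-- The prisms of a stage. -/
def HasPrism {S : SimpSet} {P : S.Pt} {k : ℕ} (T : Stage S P k) : Prop :=
  ∃ (r : ∀ m, T.E.X m → (S.Eil P (k + 1)).X m) (h : ∀ m, T.E.X m → Fin (m + 1) → (S.Eil P k).X (m + 1)),
    (∀ m (i : Fin (m + 2)) e, r m (T.E.d i e) = (S.Eil P (k + 1)).d i (r (m + 1) e)) ∧
    IsPrism T.E (S.Eil P k) (fun _ => T.proj) (fun m e => SimpSet.Eil.incl (r m e)) h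

/-- [PRISM] -/
def PrismStatement : Prop :=
  ∀ (S : SimpSet) (P : S.Pt), S.Kan → ∀ (k : ℕ) (T : Stage S P k), HasPrism T

/-- [PRISMOP] the prism operator. -/
def PrismOpStatement : Prop :=
  ∀ (E F : FSet) (p q : ∀ m, E.X m → F.X m) (h : ∀ m, E.X m → Fin (m + 1) → F.X (m + 1)),
    IsPrism E F p q h →
    ∃ Q : ∀ m : ℕ, Bdd (F.X (m + 1)) →ₗ[ℝ] Bdd (E.X m),
      (∀ m f C, Bdd.Le f C → Bdd.Le (Q m f) ((m + 1 : ℝ) * C)) ∧
      (∀ f : Bdd (F.X 0), Q 0 (F.δ f) = Bdd.pull (p 0) f - Bdd.pull (q 0) f) ∧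
      ∀ m (f : Bdd (F.X (m + 1))),
        Q (m + 1) (F.δ f) + E.δ (Q m f) = Bdd.pull (p (m + 1)) f - Bdd.pull (q (m + 1)) f

/-- [STEP] (uses [PRISMOP]) -/
def StepStatement : Prop :=
  ∀ (S : SimpSet) (P : S.Pt) (k : ℕ) (T : Stage S P k), HasAvg T → HasPrism T →
    ∀ (N : ℕ) (c : ℝ), HasBC (S.Eil P (k + 1)) N c → HasBC (S.Eil P k) N (c + (N + 1))

/-- [BASE] -/
def BaseStatement : Prop :=
  ∀ (S : SimpSet) (P : S.Pt) (N : ℕ), HasBC (S.Eil P (N + 2)) N 1 ∧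
    ∀ c, HasBC (S.Eil P 0) N c → HasBC S.toF N c

/-- The conclusion of Part B1. -/
def ContractionStatement : Prop :=
  ∀ N : ℕ, ∃ c : ℝ, 0 ≤ c ∧ ∀ (S : SimpSet) (P : S.Pt), S.Kan → S.PathConn P → S.SimplyConn P →
    HasBC S.toF N c

/-- [AMEN] groups of subexponential growth are amenable. -/
def AmenStatement : Prop := ∀ (G : Type) [Group G], SubexpGrowth G → Nonempty (InvMean G)

/-- [ABMEAN] (uses [AMEN]) -/
def AbMeanStatement : Prop := ∀ (π : Type) [AddCommGroup π], Nonempty (AddMean π)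

/-! ## Part B2: the comparison -/

/-- [EQM] equivariant families of means. -/
def EqMeanStatement : Prop :=
  ∀ (Γ : Type) [Group Γ] (X : Type) [MulAction Γ X],
    (∀ x : X, Nonempty (InvMean (MulAction.stabilizer Γ x))) →
    ∃ μ : X → (Bdd Γ →ₗ[ℝ] ℝ), (∀ x, μ x (Bdd.const 1) = 1) ∧
      (∀ x f C, Bdd.Le f C → |μ x f| ≤ C) ∧
      ∀ (g : Γ) (x : X) (f : Bdd Γ), μ (g • x) f = μ x (Bdd.pull (fun h => g * h) f)

/-- The semisimplicial set of tuples. -/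
def tupF (X : Type) : FSet where
  X m := Fin (m + 1) → X
  d i u := fun a => u (i.succAbove a)
  dd i j h u := by
    funext a
    refine congrArg u (Fin.ext ?_)
    simp only [Fin.succAbove, Fin.lt_def, Fin.le_def] at *
    split_ifs <;> simp at * <;> omega

/-- [CHAIN] the equivariant chain map (uses the means of [EQM] as a hypothesis). -/
def ChainStatement : Prop :=
  ∀ (Γ : Type) [Group Γ] (S : SimpSet) (A : S.Act Γ) (X : Type) [MulAction Γ X] (N : ℕ) (c : ℝ),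
    0 ≤ c → HasBC S.toF N c → ∀ μ : X → (Bdd Γ →ₗ[ℝ] ℝ), (∀ x, μ x (Bdd.const 1) = 1) →
      (∀ x f C, Bdd.Le f C → |μ x f| ≤ C) →
      (∀ (g : Γ) (x : X) (f : Bdd Γ), μ (g • x) f = μ x (Bdd.pull (fun h => g * h) f)) →
    ∃ a : ∀ m : ℕ, Bdd (S.X m) →ₗ[ℝ] Bdd (Fin (m + 1) → X),
      (∀ m ≤ N + 1, ∀ f C, Bdd.Le f C → Bdd.Le (a m f) (c ^ (m + 1) * C)) ∧
      (a 0 (Bdd.const 1) = Bdd.const 1) ∧
      (∀ m ≤ N + 1, ∀ (g : Γ) (f : Bdd (S.X m)) (u : Fin (m + 1) → X),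
        (a m (Bdd.pull (fun x => A.tr g x) f)).1 u = (a m f).1 (fun i => g • u i)) ∧
      ∀ m ≤ N, ∀ f : Bdd (S.X m), a (m + 1) (S.toF.δ f) = (tupF X).δ (a m f)

/-- [ALT] alternation. -/
def AltStatement : Prop :=
  ∀ X : Type, ∃ alt : ∀ m : ℕ, Bdd (Fin (m + 1) → X) →ₗ[ℝ] Bdd (Fin (m + 1) → X),
    (∀ m f C, Bdd.Le f C → Bdd.Le (alt m f) C) ∧ (∀ f, alt 0 f = f) ∧
    (∀ m f, IsAlt (alt m f).1) ∧
    (∀ m (t : X → X) f, alt m (Bdd.pull (fun u i => t (u i)) f) =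
      Bdd.pull (fun u i => t (u i)) (alt m f)) ∧
    ∀ m (f : Bdd (Fin (m + 1) → X)), alt (m + 1) ((tupF X).δ f) = (tupF X).δ (alt m f)

/-- [HTPY] an equivariant chain map `a`, composed with the map given by an equivariant map `Λ` of
vertices, is homotopic to the identity: the conclusion for invariant cocycles. -/
def HtpyStatement : Prop :=
  ∀ (D : ℕ) (c : ℝ) (Γ : Type) [Group Γ] (S : SimpSet) (A : S.Act Γ) (X : Type) [MulAction Γ X],
    HasBC S.toF (D + 1) c →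
    ∀ a : ∀ m : ℕ, Bdd (S.X m) →ₗ[ℝ] Bdd (Fin (m + 1) → X),
      (a 0 (Bdd.const 1) = Bdd.const 1) →
      (∀ m ≤ D + 1, ∀ (g : Γ) (f : Bdd (S.X m)) (u : Fin (m + 1) → X),
        (a m (Bdd.pull (fun x => A.tr g x) f)).1 u = (a m f).1 (fun i => g • u i)) →
      (∀ m ≤ D, ∀ f : Bdd (S.X m), a (m + 1) (S.toF.δ f) = (tupF X).δ (a m f)) →
    ∀ Λ : S.X 0 → X, (∀ g x, Λ (A.tr g x) = g • Λ x) →
    ∀ φ : Bdd (S.X (D + 1)), S.toF.δ φ = 0 → (∀ g x, φ.1 (A.tr g x) = φ.1 x) →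
    ∃ ψ : S.X D → ℝ, (∀ g x, ψ (A.tr g x) = ψ x) ∧
      ∀ x : S.X (D + 1), φ.1 x = (a (D + 1) φ).1 (fun i => Λ (S.vtx i x)) +
        ∑ i : Fin (D + 2), (-1 : ℝ) ^ (i : ℕ) * ψ (S.d i x)

/-- [COMP] the comparison (uses [EQM], [CHAIN], [ALT], [HTPY]). -/
def CompStatement : Prop :=
  ∀ (D : ℕ) (c : ℝ), 0 ≤ c → ∃ K : ℝ, 0 ≤ K ∧
    ∀ (Γ : Type) [Group Γ] (S : SimpSet) (A : S.Act Γ) (X : Type) [MulAction Γ X],
      HasBC S.toF (D + 1) c → (∀ x : X, Nonempty (InvMean (MulAction.stabilizer Γ x))) →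
      ∀ Λ : S.X 0 → X, (∀ g x, Λ (A.tr g x) = g • Λ x) →
      ∀ (φ : Bdd (S.X (D + 1))) (C : ℝ), Bdd.Le φ C → S.toF.δ φ = 0 →
        (∀ g x, φ.1 (A.tr g x) = φ.1 x) →
      ∃ (G : (Fin (D + 2) → X) → ℝ) (ψ : S.X D → ℝ), IsAlt G ∧ (∀ u, |G u| ≤ K * C) ∧
        (∀ (g : Γ) u, G (fun i => g • u i) = G u) ∧ (∀ g x, ψ (A.tr g x) = ψ x) ∧
        ∀ x : S.X (D + 1), φ.1 x = G (fun i => Λ (S.vtx i x)) +
          ∑ i : Fin (D + 2), (-1 : ℝ) ^ (i : ℕ) * ψ (S.d i x)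

/-! ## Part B3: the universal cover -/

/-- [COVKAN] -/
def CovKanStatement : Prop :=
  ∀ (M : Type) [TopologicalSpace M] (x₀ : M), (covS x₀).Kan

/-- [COVCONN] -/
def CovConnStatement : Prop :=
  ∀ (M : Type) [TopologicalSpace M] (x₀ : M),
    ∃ P : (covS x₀).Pt, (covS x₀).PathConn P ∧ (covS x₀).SimplyConn P

/-- [COVACT] the action, and lifts of simplices. -/
def CovActStatement : Prop :=
  ∀ (M : Type) [TopologicalSpace M] [PathConnectedSpace M] (x₀ : M),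
    (∃ A : (covS x₀).Act (FundamentalGroup M x₀),
      ∀ (g : FundamentalGroup M x₀) (m : ℕ) (f : USimp x₀ m), A.tr g (m := m) f = USimp.tr g f) ∧
    (∀ (m : ℕ) (τ : Sing m M), ∃ f : USimp x₀ m, f.proj = τ) ∧
    ∀ (m : ℕ) (f f' : USimp x₀ m), f.proj = f'.proj → ∃ g, f' = USimp.tr g f

section Regions

variable {M : Type} [TopologicalSpace M]

/-- The classes of the loops in `D`. -/
def loopsIn (D : Set M) (x : M) : Subgroup (FundamentalGroup M x) :=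
  Subgroup.closure {g | ∃ γ : Path x x, (∀ t, γ t ∈ D) ∧
    g = FundamentalGroup.fromPath (Path.Homotopic.Quotient.mk γ)}

/-- Two points of the universal cover over `D` are in the same component. -/
def SameComp {x₀ : M} (D : Set M) (p q : Cov x₀) : Prop :=
  ∃ γ : Path p.1 q.1, (∀ t, γ t ∈ D) ∧ q.2 = p.2.trans (Path.Homotopic.Quotient.mk γ)

end Regions

/-- [REG] the set of components of the preimages of the regions `D v`, as a `Γ`-set. -/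
def RegStatement : Prop :=
  ∀ (M : Type) [TopologicalSpace M] (x₀ : M) (V : Type) (D : V → Set M),
    (∀ v, ∀ x ∈ D v, SubexpGrowth (loopsIn (D v) x)) →
    ∃ (X : Type) (_ : MulAction (FundamentalGroup M x₀) X)
      (cl : ∀ (v : V) (p : Cov x₀), p.1 ∈ D v → X),
      (∀ x : X, SubexpGrowth (MulAction.stabilizer (FundamentalGroup M x₀) x)) ∧
      (∀ v p (h : p.1 ∈ D v) (g : FundamentalGroup M x₀),
        g • cl v p h = cl v (Cov.tr g p) h) ∧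
      ∀ v (p q : Cov x₀) (hp : p.1 ∈ D v) (hq : q.1 ∈ D v), SameComp (D v) p q →
        cl v p hp = cl v q hq

/-! ## Part B4: local degrees -/

/-- The type of a point of `ℝ^D`: the first coordinate of absolute value larger than `θ`, and its
sign. -/
def typ {D : ℕ} (θ : ℝ) (y : Fin D → ℝ) : Option (Fin D × Bool) :=
  if h : (Finset.univ.filter fun k => θ < |y k|).Nonempty then
    some ((Finset.univ.filter fun k => θ < |y k|).min' h,
      decide (0 < y ((Finset.univ.filter fun k => θ < |y k|).min' h)))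
  else none

/-- The standard rainbow tuple with signs `s`. -/
def stdT {D : ℕ} (s : Fin D → Bool) : Fin (D + 1) → Option (Fin D × Bool) :=
  Fin.cons none (fun k => some (k, s k))

/-- The sign of a rainbow tuple. -/
def rb {D : ℕ} (s : Fin D → Bool) (t : Fin (D + 1) → Option (Fin D × Bool)) : ℤ :=
  open Classical in
  if h : ∃ σ : Equiv.Perm (Fin (D + 1)), ∀ i, t i = stdT s (σ i) then
    (Equiv.Perm.sign h.choose : ℤ) else 0

/-- Equal coordinates come with equal signs. -/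
def Consist {D m : ℕ} (t : Fin m → Option (Fin D × Bool)) : Prop :=
  ∀ i j k b b', t i = some (k, b) → t j = some (k, b') → b = b'

/-- [RBCOC] the rainbow sign is a cocycle on consistent tuples. -/
def RbCocStatement : Prop :=
  ∀ (D : ℕ) (s : Fin D → Bool) (t : Fin (D + 2) → Option (Fin D × Bool)), Consist t →
    ∑ i : Fin (D + 2), (-1 : ℤ) ^ (i : ℕ) * rb s (fun a => t (i.succAbove a)) = 0

/-- [RBEXP] alternating functions of consistent tuples. -/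
def RbExpStatement : Prop :=
  ∀ (D : ℕ) (G : (Fin (D + 1) → Option (Fin D × Bool)) → ℝ), IsAlt G →
    ∀ t, Consist t → G t = ∑ s : Fin D → Bool, G (stdT s) * (rb s t : ℝ)

/-- The complement of the box of size `θ`. -/
def boxc (D : ℕ) (θ : ℝ) : Set (Fin D → ℝ) := {y | ∃ k, θ < |y k|}

/-- [UNIV] the class of the rainbow cocycle is a bounded multiple of a universal class (uses
[RBCOC]). -/
def UnivStatement : Prop :=
  ∀ n : ℕ, ∃ W : ℕ, ∀ (θ : ℝ) (_ : 0 < θ) (s : Fin (n + 1) → Bool)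
    (h0 : MapsTo (ContinuousMap.id (Fin (n + 1) → ℝ)) (boxc (n + 1) θ) ({0}ᶜ : Set (Fin (n + 1) → ℝ))),
    ∃ w : relCocycles ℤ (boxc (n + 1) θ) (n + 1),
      (∀ τ : Sing (n + 1) (Fin (n + 1) → ℝ), (∀ p q k, |τ p k - τ q k| < θ) →
        w.1 τ = rb s (fun i => typ θ (τ (stdSimplex.vertex i)))) ∧
      ∃ (ι : HR (n + 1) ({0}ᶜ : Set (Fin (n + 1) → ℝ)) ℤ) (m : ℤ), IsUniv ι ∧ |m| ≤ W ∧
        HR.mk (n + 1) w = m • HR.pb (ContinuousMap.id (Fin (n + 1) → ℝ)) h0 ι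

/-- `F : X → ℝ^D` is homotopic to a local homeomorphism near its zero `z`. -/
def LocLin {D : ℕ} {X : Type} [TopologicalSpace X] (F : X → Fin D → ℝ) (z : X) : Prop :=
  ∃ (j : (Fin D → ℝ) → X) (A : (Fin D → ℝ) → (Fin D → ℝ)), IsOpenEmbedding j ∧
    IsOpenEmbedding A ∧ j 0 = z ∧ A 0 = 0 ∧ F z = 0 ∧
    ∀ v, v ≠ 0 → ∀ s ∈ Icc (0 : ℝ) 1, (1 - s) • F (j v) + s • A v ≠ 0

/-- [LOCLIN] -/
def LocLinStatement : Prop :=
  ∀ (n : ℕ) (M : Type) [MetricSpace M] [MeasurableSpace M] (vol : Measure M)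
    (F : M → Fin n → ℝ) (z : M), Continuous F → F z = 0 → Regular vol F z →
    ∀ U : Set M, IsOpen U → z ∈ U → ∃ (j : (Fin n → ℝ) → M) (A : (Fin n → ℝ) → (Fin n → ℝ)),
      IsOpenEmbedding j ∧ IsOpenEmbedding A ∧ j 0 = z ∧ A 0 = 0 ∧ range j ⊆ U ∧
      ∀ v, v ≠ 0 → ∀ s ∈ Icc (0 : ℝ) 1, (1 - s) • F (j v) + s • A v ≠ 0

/-- The geometric data near the crossing points. -/
structure LocData (D : ℕ) (M : Type) [MetricSpace M] (Z : Finset M) where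
  r : ℝ
  θ : ℝ
  ε : ℝ
  F : M → M → Fin D → ℝ
  r_pos : 0 < r
  θ_pos : 0 < θ
  ε_pos : 0 < ε
  ε_le : ε ≤ r
  ε_le' : ε ≤ θ
  sep : ∀ z ∈ Z, ∀ z' ∈ Z, z ≠ z' → 5 * r ≤ dist z z'
  lip : ∀ z ∈ Z, ∀ k, LipschitzWith 1 (fun x => F z x k)
  small : ∀ z ∈ Z, ∀ x, dist x z < 2 * r → (∀ k, |F z x k| ≤ θ) → dist x z < r
  zero : ∀ z ∈ Z, ∀ x, dist x z < 2 * r → F z x = 0 → x = z
  loclin : ∀ z ∈ Z, LocLin (F z) z

/-- The properties of the cochain `ω` near and far from the crossing points. -/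
structure OmegaProp {D : ℕ} {M : Type} [MetricSpace M] {Z : Finset M} (L : LocData D M Z)
    (G : M → (Fin D → Bool) → ℝ) (ω : Sing D M → ℝ) : Prop where
  coc : cob (A := ℝ) D ω = 0
  far : ∀ τ : Sing D M, (∀ p q, dist (τ p) (τ q) < L.ε) → (∀ z ∈ Z, ∀ p, L.r ≤ dist (τ p) z) →
    ω τ = 0
  near : ∀ τ : Sing D M, (∀ p q, dist (τ p) (τ q) < L.ε) → ∀ z ∈ Z, (∀ p, dist (τ p) z < 2 * L.r) →
    ω τ = ∑ s : Fin D → Bool,
      G z s * (rb s (fun i => typ L.θ (L.F z (τ (stdSimplex.vertex i)))) : ℝ)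

/-- [TOP] the evaluation on a fundamental cycle (uses [RBCOC], [UNIV]). -/
def TopStatement : Prop :=
  ∀ n : ℕ, ∃ W : ℝ, 0 ≤ W ∧ ∀ (M : Type) [MetricSpace M] [CompactSpace M] (Z : Finset M)
    (L : LocData (n + 1) M Z) (G : M → (Fin (n + 1) → Bool) → ℝ) (ω : Sing (n + 1) M → ℝ),
    OmegaProp L G ω → ∀ B : ℝ, 0 ≤ B → (∀ z ∈ Z, ∀ s, |G z s| ≤ B) →
    ∀ c : Chain (n + 1) M, IsFundamental c → |H35.ev (n + 1) (A := ℝ) ω c| ≤ W * Z.card * B

/-- [HB] duality. -/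
def HBStatement : Prop :=
  ∀ (n : ℕ) (X : Type) [TopologicalSpace X] (c : Chain (n + 1) X) (B : ℝ), 0 ≤ B →
    bdry n c = 0 →
    (∀ φ : Sing (n + 1) X → ℝ, (∀ σ, |φ σ| ≤ 1) → cob (A := ℝ) (n + 1) φ = 0 →
      |H35.ev (n + 1) (A := ℝ) φ c| ≤ B) →
    simplicialVolume c ≤ B

/-! ## Part B5: labels -/

/-- The label of a point: a crossing point, or a member of a list. -/
abbrev Lab (D N : ℕ) (M : Type) : Type := M ⊕ (Fin D × Fin N)

/-- The label given by a type. -/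
def labOf {D N : ℕ} {M : Type} (z : M) (a b : Fin D → Fin N) : Option (Fin D × Bool) → Lab D N M
  | none => Sum.inl z
  | some (k, false) => Sum.inr (k, a k)
  | some (k, true) => Sum.inr (k, b k)

/-- [LABEL] the labelling (pure metric topology, uses [LOCLIN]). -/
def LabelStatement : Prop :=
  ∀ (D N : ℕ), 1 ≤ D → ∀ (M : Type) [MetricSpace M] [CompactSpace M] [MeasurableSpace M] (vol : Measure M)
    (S : SepSys D N M) (Z : Finset M), (∀ x, (∀ k, x ∈ S.wall k) ↔ x ∈ Z) →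
    (∀ z ∈ Z, S.Simple vol z) → ∀ r₀ : ℝ, 0 < r₀ →
    ∃ (L : LocData D M Z) (lab : M → Lab D N M) (a b : M → Fin D → Fin N), 2 * L.r ≤ r₀ ∧
      (∀ x k l, lab x = Sum.inr (k, l) → ∀ y, dist x y < L.ε → S.u k l y ≤ 0) ∧
      (∀ x z, lab x = Sum.inl z → z ∈ Z ∧ dist x z < L.r) ∧
      (∀ x y k l l', dist x y < L.ε → lab x = Sum.inr (k, l) → lab y = Sum.inr (k, l') → l = l') ∧
      (∀ z ∈ Z, ∀ x, dist x z < 2 * L.r → lab x = labOf z (a z) (b z) (typ L.θ (L.F z x))) ∧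
      (∀ z ∈ Z, ∀ k x, dist x z < 2 * L.r → dist x (S.ctr k (a z k)) < S.rad k (a z k) ∧
        dist x (S.ctr k (b z k)) < S.rad k (b z k))

/-- The hypotheses on the space in the nerve argument. -/
structure NerveHyp (M : Type) [MetricSpace M] : Prop where
  compact : CompactSpace M
  pathConn : PathConnectedSpace M
  ball : ∀ (x : M) (r : ℝ), 0 < r → IsPathConnected (Metric.ball x r)
  lsc : ∃ ε : ℝ, 0 < ε ∧ ∀ (x : M) (γ : Path x x), (∀ t, dist (γ t) x < ε) →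
    Path.Homotopic γ (Path.refl x)

/-- [OMEGA] (uses [LABEL], [REG], [COVACT], [COVKAN], [COVCONN], [COMP], [AMEN], [RBEXP] and
`ContractionStatement`). -/
def OmegaStatement : Prop :=
  ∀ n : ℕ, ∃ K : ℝ, 0 ≤ K ∧ ∀ (N : ℕ) (M : Type) [MetricSpace M] [MeasurableSpace M]
    (vol : Measure M), NerveHyp M →
    ∀ (S : SepSys (n + 1) N M) (Z : Finset M), (∀ x, (∀ k, x ∈ S.wall k) ↔ x ∈ Z) →
    (∀ z ∈ Z, S.Simple vol z) →
    (∀ k l, ∀ x ∈ Metric.ball (S.ctr k l) (S.rad k l),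
      SubexpGrowth (loopsIn (Metric.ball (S.ctr k l) (S.rad k l)) x)) →
    ∃ L : LocData (n + 1) M Z, ∀ φ : Sing (n + 1) M → ℝ, (∀ σ, |φ σ| ≤ 1) →
      cob (A := ℝ) (n + 1) φ = 0 →
      ∃ (ω : Sing (n + 1) M → ℝ) (ψ : Sing n M → ℝ) (G : M → (Fin (n + 1) → Bool) → ℝ),
        OmegaProp L G ω ∧ (∀ z s, |G z s| ≤ K) ∧ φ = ω + cob (A := ℝ) n ψ

/-- The conclusion of Part B. -/
def NerveStatement : Prop :=
  ∀ n : ℕ, ∃ K : ℝ, 0 ≤ K ∧ ∀ (N : ℕ) (M : Type) [MetricSpace M] [MeasurableSpace M]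
    (vol : Measure M), NerveHyp M →
    ∀ (S : SepSys (n + 1) N M) (Z : Finset M), (∀ x, (∀ k, x ∈ S.wall k) ↔ x ∈ Z) →
    (∀ z ∈ Z, S.Simple vol z) →
    (∀ k l, ∀ x ∈ Metric.ball (S.ctr k l) (S.rad k l),
      SubexpGrowth (loopsIn (Metric.ball (S.ctr k l) (S.rad k l)) x)) →
    ∀ c : Chain (n + 1) M, IsFundamental c → simplicialVolume c ≤ K * Z.card

/-! ## Part A -/

section PartA

/-- [CRIT] the set of critical values is null. -/
def CritStatement : Prop :=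
  ∀ (n : ℕ) (M : Type) [MetricSpace M] [CompactSpace M] [MeasurableSpace M] [BorelSpace M]
    (vol : Measure M), NearEuc n M vol → ∀ F : M → Fin n → ℝ,
    (∀ k, LipschitzWith 1 (fun x => F x k)) →
    volume {t : Fin n → ℝ | ∃ x, F x = t ∧ ¬ Regular vol F x} = 0

/-- [FIBRE] fibres consisting of regular points are finite. -/
def FibreStatement : Prop :=
  ∀ (n : ℕ) (M : Type) [MetricSpace M] [CompactSpace M] [MeasurableSpace M] (vol : Measure M)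
    (F : M → Fin n → ℝ), Continuous F → ∀ t, (∀ x, F x = t → Regular vol F x) →
    {x | F x = t}.Finite

/-- [DENS] the density of the volume at a regular point is at least one. -/
def DensStatement : Prop :=
  ∀ (n : ℕ) (M : Type) [MetricSpace M] [MeasurableSpace M] [BorelSpace M] (vol : Measure M)
    (F : M → Fin n → ℝ), (∀ k, LipschitzWith 1 (fun x => F x k)) → ∀ z, Regular vol F z →
    ∀ U : Set M, IsOpen U → z ∈ U → ∀ c : ℝ, c < 1 → ∀ᶠ ε in 𝓝[>] (0 : ℝ),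
      ENNReal.ofReal (c * ε ^ n) ≤ vol (U ∩ {x | ∀ k, F z k ≤ F x k ∧ F x k < F z k + ε})

variable {M : Type} [MetricSpace M] [MeasurableSpace M]

/-- The normalised volume `e^{-k} vol A`. -/
def wv (vol : Measure M) (k : ℕ) (e : ℝ) (A : Set M) : ℝ≥0∞ := ENNReal.ofReal ((e ^ k)⁻¹) * vol A

variable (M) in
/-- [SEPSTAGE] one step of the successive minimisation. -/
def SepStageFor : Prop :=
  ∀ (vol : Measure M) [IsFiniteMeasure vol] (ι : Type) [Finite ι] (f : ι → M → ℝ) (b : ι → ℝ),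
    (∀ i, Continuous (f i)) →
    ∀ Gen : List (ι × ℝ) → Prop, Gen [] → (∀ L, Gen L → ∀ i, ∀ᵐ ρ : ℝ, Gen ((i, ρ) :: L)) →
    (∃ β : ι → ℝ, (∀ i, 0 ≤ β i ∧ β i < b i) ∧ ∀ x, ∃ i, f i x < β i) →
    ∀ (k : ℕ) (A : ℝ → Set M), (∀ ε, MeasurableSet (A ε)) → ∀ e : ℕ → ℝ, (∀ j, 0 < e j) →
      Tendsto e atTop (𝓝 0) → ∀ C : ℝ≥0∞, C ≠ ⊤ → (∀ j, wv vol k (e j) (A (e j)) ≤ C) →
      ∀ err : ℝ, 0 < err →
    ∃ (L : List (ι × ℝ)) (φ : ℕ → ℕ), StrictMono φ ∧ Gen L ∧ Covers f L ∧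
      (∀ p ∈ L, 0 < p.2 ∧ p.2 < b p.1) ∧
      (∃ C' : ℝ≥0∞, C' ≠ ⊤ ∧
        ∀ j, wv vol (k + 1) (e (φ j)) (A (e (φ j)) ∩ Slab f (e (φ j)) L) ≤ C') ∧
      ∀ φ' : ℕ → ℕ, StrictMono φ' → ∀ (i : ι) (τ t : ℝ), 0 ≤ τ → τ < t → t < b i →
        ∫⁻ s in Ioo τ t, liminf (fun j => wv vol (k + 1) (e (φ (φ' j)))
            (A (e (φ (φ' j))) ∩ Slab f (e (φ (φ' j))) L ∩ {x | f i x < s})) atTop ≤
          liminf (fun j => wv vol k (e (φ (φ' j))) (A (e (φ (φ' j))) ∩ {x | f i x < t})) atTop +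
            ENNReal.ofReal (err * (t - τ))

/-- [SEPSTAGE] -/
def SepStageStatement : Prop :=
  ∀ (M : Type) [MetricSpace M] [CompactSpace M] [MeasurableSpace M] [BorelSpace M], SepStageFor M

/-- The list `L_{k-1} ++ ... ++ L_0`. -/
def catL {ι : Type} {n : ℕ} (L : Fin n → List (ι × ℝ)) : List (ι × ℝ) :=
  ((List.ofFn L).reverse).flatten

/-- [SEPITER] the successive minimisation (uses [SEPSTAGE]). -/
def SepIterStatement : Prop :=
  ∀ (n : ℕ) (M : Type) [MetricSpace M] [CompactSpace M] [MeasurableSpace M] [BorelSpace M]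
    (vol : Measure M) [IsFiniteMeasure vol] (ι : Type) [Finite ι] (f : ι → M → ℝ) (b : ι → ℝ),
    (∀ i, Continuous (f i)) →
    ∀ Gen : List (ι × ℝ) → Prop, Gen [] → (∀ L, Gen L → ∀ i, ∀ᵐ ρ : ℝ, Gen ((i, ρ) :: L)) →
    (∃ β : ι → ℝ, (∀ i, 0 ≤ β i ∧ β i < b i) ∧ ∀ x, ∃ i, f i x < β i) →
    ∀ err : ℝ, 0 < err →
    ∃ (L : Fin n → List (ι × ℝ)) (e : ℕ → ℝ), (∀ j, 0 < e j) ∧ Tendsto e atTop (𝓝 0) ∧
      Gen (catL L) ∧ (∀ k, Covers f (L k)) ∧ (∀ k, ∀ p ∈ L k, 0 < p.2 ∧ p.2 < b p.1) ∧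
      ∀ (i : ι) (τ t : ℝ) (N : ℕ), 0 ≤ τ → τ < t → t < b i →
        (∀ s, τ < s → (N : ℝ≥0∞) ≤ liminf (fun j => wv vol n (e j)
          ((⋂ k, Slab f (e j) (L k)) ∩ {x | f i x < s})) atTop) →
        ENNReal.ofReal (N * (t - τ) ^ n / (n.factorial : ℝ)) ≤
          vol {x | f i x < t} + ENNReal.ofReal err

/-- [GENLIST] generic lists (uses [CRIT], [FIBRE]). -/
def GenListStatement : Prop :=
  ∀ (n : ℕ) (M : Type) [MetricSpace M] [CompactSpace M] [MeasurableSpace M] [BorelSpace M]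
    (vol : Measure M), NearEuc n M vol → ∀ (ι : Type) [Finite ι] (f : ι → M → ℝ),
    (∀ i, LipschitzWith 1 (f i)) →
    ∃ Gen : List (ι × ℝ) → Prop, Gen [] ∧ (∀ L, Gen L → ∀ i, ∀ᵐ ρ : ℝ, Gen ((i, ρ) :: L)) ∧
      (∀ L, Gen L → ∀ l : Fin n → ι × ℝ, (List.ofFn l).Sublist L →
        ∀ x, (∀ k, f (l k).1 x = (l k).2) → Regular vol (fun y k => f (l k).1 y) x) ∧
      ∀ L, Gen L → ∀ l : Fin (n + 1) → ι × ℝ, (List.ofFn l).Sublist L →
        ¬ ∃ x, ∀ k, f (l k).1 x = (l k).2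

/-- [SEPTHM] the separation theorem (uses [SEPITER], [GENLIST], [FIBRE], [DENS]). -/
def SepThmStatement : Prop :=
  ∀ (n : ℕ), 1 ≤ n → ∀ (M : Type) [MetricSpace M] [CompactSpace M] [MeasurableSpace M]
    [BorelSpace M] (vol : Measure M) [IsFiniteMeasure vol], NearEuc n M vol →
    ∀ (ι : Type) [Finite ι] (f : ι → M → ℝ) (b : ι → ℝ), (∀ i, LipschitzWith 1 (f i)) →
    (∃ β : ι → ℝ, (∀ i, 0 ≤ β i ∧ β i < b i) ∧ ∀ x, ∃ i, f i x < β i) →
    ∀ err : ℝ, 0 < err →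
    ∃ (N : ℕ) (u : Fin n → Fin N → M → ℝ) (Z : Finset M),
      (∀ k l, (∃ (i : ι) (ρ : ℝ), 0 < ρ ∧ ρ < b i ∧ u k l = fun x => f i x - ρ) ∨
        u k l = fun _ => 1) ∧
      (∀ k x, ∃ l, u k l x < 0) ∧
      (∀ x, (∀ k, ∃ l, u k l x = 0 ∧ ∀ j, l < j → 0 ≤ u k j x) ↔ x ∈ Z) ∧
      (∀ z ∈ Z, ∃ a : Fin n → Fin N, (∀ k, u k (a k) z = 0) ∧ (∀ k j, j ≠ a k → u k j z ≠ 0) ∧
        Regular vol (fun x k => u k (a k) x) z) ∧
      ∀ (i : ι) (τ t : ℝ) (Z' : Finset M), Z' ⊆ Z → (∀ z ∈ Z', f i z ≤ τ) → 0 ≤ τ → τ < t →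
        t < b i →
        ENNReal.ofReal (Z'.card * (t - τ) ^ n / (n.factorial : ℝ)) ≤ vol {x | f i x < t} +
          ENNReal.ofReal err

/-- [NUM] the choice of the number of radii. -/
def NumStatement : Prop :=
  ∀ n : ℕ, 1 ≤ n → ∃ C : ℝ, (n.factorial : ℝ) ≤ C ∧ ∀ v : ℝ, 1 / (n.factorial : ℝ) ≤ v → ∃ K : ℕ, 1 ≤ K ∧
    2 * (n.factorial : ℝ) * v * (32 * K) ^ n < Real.exp K ∧
    4 * (n.factorial : ℝ) * (32 * K) ^ n * v ≤ C * v * (Real.log (C * v)) ^ n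

/-- [THMA] the conclusion of Part A (uses [SEPTHM], [NUM]). -/
def ThmAStatement : Prop :=
  ∀ n : ℕ, 1 ≤ n → ∃ C : ℝ, 0 < C ∧
    ∀ (M : Type) [MetricSpace M] [CompactSpace M] [MeasurableSpace M] [BorelSpace M]
      (vol : Measure M) [IsFiniteMeasure vol], NearEuc n M vol →
    ∀ m : M → ℝ, (∀ x, 0 < m x) → (∀ x y, m x ≤ m y + dist x y) → ∀ R : ℝ, 0 < R →
      (∀ x, (∀ r, 0 < r → r ≤ m x → ENNReal.ofReal (r ^ n / (n.factorial : ℝ)) ≤
        vol (Metric.ball x r)) → R ≤ m x) →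
      (∃ x, ∀ r, 0 < r → r ≤ m x → ENNReal.ofReal (r ^ n / (n.factorial : ℝ)) ≤
        vol (Metric.ball x r)) →
    ∃ (N : ℕ) (S : SepSys n N M) (Z : Finset M), (∀ k l, S.rad k l < m (S.ctr k l)) ∧
      (∀ x, (∀ k, x ∈ S.wall k) ↔ x ∈ Z) ∧ (∀ z ∈ Z, S.Simple vol z) ∧
      1 ≤ C * (vol.real univ / R ^ n) ∧
      (Z.card : ℝ) ≤ C * (vol.real univ / R ^ n) * (Real.log (C * (vol.real univ / R ^ n))) ^ n

end PartA

/-! ## Part C: Riemannian manifolds -/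

section PartC

open Bundle
open scoped Manifold ContDiff

/-- Length spaces. -/
def IsLength (M : Type) [MetricSpace M] : Prop :=
  ∀ (x y : M) (ε : ℝ), 0 < ε → ∃ γ : Path x y,
    eVariationOn γ univ ≤ ENNReal.ofReal (dist x y + ε)

/-- [RVOL] the Riemannian volume. -/
def RVolStatement : Prop :=
  ∀ (n : ℕ) (M : Type) [MetricSpace M] [CompactSpace M] [ConnectedSpace M]
    [ChartedSpace (EuclideanSpace ℝ (Fin n)) M] [IsManifold (𝓡 n) ∞ M]
    [RiemannianBundle (fun (x : M) => TangentSpace (𝓡 n) x)]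
    [IsContMDiffRiemannianBundle (𝓡 n) ∞ (EuclideanSpace ℝ (Fin n))
      (fun (x : M) => TangentSpace (𝓡 n) x)]
    [IsRiemannianManifold (𝓡 n) M] [MeasurableSpace M] [BorelSpace M] (vol : Measure M),
    IsRiemannianVolume (n := n) vol → IsFiniteMeasure vol ∧ NearEuc n M vol

/-- [RLEN] Riemannian manifolds are length spaces. -/
def RLenStatement : Prop :=
  ∀ (n : ℕ) (M : Type) [MetricSpace M] [CompactSpace M] [ConnectedSpace M]
    [ChartedSpace (EuclideanSpace ℝ (Fin n)) M] [IsManifold (𝓡 n) ∞ M]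
    [RiemannianBundle (fun (x : M) => TangentSpace (𝓡 n) x)]
    [IsContMDiffRiemannianBundle (𝓡 n) ∞ (EuclideanSpace ℝ (Fin n))
      (fun (x : M) => TangentSpace (𝓡 n) x)]
    [IsRiemannianManifold (𝓡 n) M], IsLength M

/-- [LSC] small loops are null-homotopic. -/
def LscStatement : Prop :=
  ∀ (n : ℕ) (M : Type) [MetricSpace M] [CompactSpace M]
    [ChartedSpace (EuclideanSpace ℝ (Fin n)) M],
    ∃ ε : ℝ, 0 < ε ∧ ∀ (x : M) (γ : Path x x), (∀ t, dist (γ t) x < ε) →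
      Path.Homotopic γ (Path.refl x)

/-- [MARG] properties of the Margulis function in compact length spaces. -/
def MargStatement : Prop :=
  ∀ (M : Type) [MetricSpace M] [CompactSpace M] [Nonempty M], IsLength M →
    (∃ ε : ℝ, 0 < ε ∧ ∀ (x : M) (γ : Path x x), (∀ t, dist (γ t) x < ε) →
      Path.Homotopic γ (Path.refl x)) →
    PathConnectedSpace M ∧ (∀ (x : M) (r : ℝ), 0 < r → IsPathConnected (Metric.ball x r)) ∧
    (∀ x y : M, margulis x ≤ margulis y + ENNReal.ofReal (2 * dist x y)) ∧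
    (∃ c : ℝ, 0 < c ∧ ∀ x : M, ENNReal.ofReal c ≤ margulis x) ∧
    ∀ (c : M) (r : ℝ), 0 < r → ENNReal.ofReal (2 * r) < margulis c →
      ∀ x ∈ Metric.ball c r, SubexpGrowth (loopsIn (Metric.ball c r) x)

end PartC

end

end Pool.Agent.Lib.MP_72b724_gt
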