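import Pool.Agent.Lib.MP_72b724_gt.Basic

/-!
# MP_72b724_gt: the definitions used by the final statement, second part

Closed connected Riemannian manifolds and their volume.
-/

open scoped Manifold ContDiff ENNReal Topology
open MeasureTheory Set Bundle

namespace Pool.Agent.Lib.MP_72b724_gt.Riem

noncomputable section

/-- The Euclidean space `ℝⁿ`. -/
def E (n : ℕ) : Type := EuclideanSpace ℝ (Fin n)

/-- The usual norm of `ℝⁿ`. -/
instance instE (n : ℕ) : NormedAddCommGroup (E n) :=
  PiLp.normedAddCommGroup 2 (fun _ : Fin n => ℝ)

/-- The usual vector space structure of `ℝⁿ`. -/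
instance instE' (n : ℕ) : NormedSpace ℝ (E n) := PiLp.normedSpace 2 ℝ (fun _ : Fin n => ℝ)

/-- The `i`-th standard basis vector. -/
def E.basis {n : ℕ} (i : Fin n) : E n := EuclideanSpace.single i (1 : ℝ)

/-- The model of the `n`-dimensional manifolds without boundary. -/
def R (n : ℕ) : ModelWithCorners ℝ (E n) (E n) := modelWithCornersSelf ℝ (E n)

/-- The Riemannian metric of `M` is smooth. -/
def SmoothMetric (n : ℕ) (M : Type) [TopologicalSpace M] [ChartedSpace (E n) M]
    [IsManifold (R n) ∞ M] [RiemannianBundle (fun x : M => TangentSpace (R n) x)] : Prop :=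
  IsContMDiffRiemannianBundle (R n) ∞ (E n) (fun x : M => TangentSpace (R n) x)

/-- **Closed connected Riemannian manifolds of dimension `n`**: compact connected smooth manifolds
without boundary with a smooth Riemannian metric and the Riemannian distance. -/
structure RManifold (n : ℕ) where
  pts : Type
  metric : MetricSpace pts
  compact : CompactSpace pts
  connected : ConnectedSpace pts
  charts : ChartedSpace (E n) pts
  smooth : IsManifold (R n) ∞ pts
  bundle : RiemannianBundle (fun x : pts => TangentSpace (R n) x)
  smoothMetric : SmoothMetric n pts
  riemannian : IsRiemannianManifold (R n) pts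

attribute [instance] RManifold.metric RManifold.compact RManifold.connected RManifold.charts
  RManifold.smooth RManifold.bundle RManifold.riemannian

variable {n : ℕ} (M : RManifold n)

/-- The Borel sets. -/
instance RManifold.instM : MeasurableSpace M.pts := borel M.pts

/-- The Riemannian metric at `p` (the tangent space at `p` is `ℝⁿ` by definition, a tangent vector
being given by its components in the chart at `p`). -/
def RManifold.g (p : M.pts) (v w : E n) : ℝ := inner ℝ (E := TangentSpace (R n) p) v w

/-- The inverse of the chart at `x`. -/
def RManifold.param (x : M.pts) : E n → M.pts := (extChartAt (R n) x).symm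

/-- The derivative of the inverse of the chart at `x`, at the point with coordinates `y`. -/
def RManifold.D (x : M.pts) (y : E n) : E n →L[ℝ] E n := mfderiv (R n) (R n) (M.param x) y

/-- The matrix `gᵢⱼ` of the Riemannian metric in the chart at `x`, at the point with coordinates
`y`. -/
def RManifold.gram (x : M.pts) (y : E n) : Matrix (Fin n) (Fin n) ℝ :=
  Matrix.of fun i j => M.g (M.param x y) (M.D x y (E.basis i)) (M.D x y (E.basis j))

/-- `vol` is the **Riemannian volume**: it is given by `√det(gᵢⱼ) dy` in all (preferred) charts. -/
def RManifold.IsVolume (vol : Measure M.pts) : Prop :=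
  ∀ (x : M.pts) (A : Set M.pts), MeasurableSet A → A ⊆ (chartAt (E n) x).source →
    vol A = ∫⁻ y in (extChartAt (R n) x) '' A, ENNReal.ofReal (√((M.gram x y).det))
      ∂(volume : Measure (EuclideanSpace ℝ (Fin n)))

end

end Pool.Agent.Lib.MP_72b724_gt.Riem
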